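import Pool.Agent.Helper76.TC2.Goals

/-!
# TC2-GT: geodesic metrics have bounded turning with constant one
-/

set_option autoImplicit false

open Set

namespace Pool.Agent.Helper70.TC2.GT

open Pool.Agent.Helper76.TC2 Pool.Agent.Helper76.TC

theorem t : S_GT := by
  intro n d hB hG
  refine ⟨hB.symm, hB.triangle, hB.periodic, hB.bilip, fun x y => ?_⟩
  obtain ⟨c, C, hc, hb⟩ := hB.bilip
  have hnn : ∀ x y, 0 ≤ d x y := fun x y => le_trans (by positivity) (hb x y).1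
  obtain ⟨γ, h0, h1, hd⟩ := hG x y
  set L := d x y with hL
  have hL0 : 0 ≤ L := hnn x y
  -- Lipschitz
  have hlip : ∀ s ∈ Icc (0 : ℝ) L, ∀ t ∈ Icc (0 : ℝ) L, ‖γ s - γ t‖ ≤ c⁻¹ * |s - t| := by
    intro s hs t ht
    have h2 := (hb (γ s) (γ t)).1
    rw [hd s hs t ht] at h2
    rw [inv_mul_eq_div, le_div_iff₀ hc]
    linarith
  have hcont : ContinuousOn γ (Icc 0 L) := by
    have : LipschitzOnWith (Real.toNNReal c⁻¹) γ (Icc 0 L) := by
      refine LipschitzOnWith.of_dist_le_mul fun s hs t ht => ?_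
      rw [dist_eq_norm, Real.dist_eq, Real.coe_toNNReal _ (by positivity)]
      exact hlip s hs t ht
    exact this.continuousOn
  have hmem : ∀ t : unitInterval, (t : ℝ) * L ∈ Icc (0 : ℝ) L := fun t =>
    ⟨mul_nonneg t.2.1 hL0, mul_le_of_le_one_left hL0 t.2.2⟩
  refine ⟨⟨⟨fun t => γ ((t : ℝ) * L), ?_⟩, ?_, ?_⟩, ?_⟩
  · exact hcont.comp_continuous (by fun_prop) hmem
  · simp [h0]
  · simp [h1]
  · intro t
    change d x (γ ((t : ℝ) * L)) ≤ 1 * L
    have h3 := hd 0 ⟨le_rfl, hL0⟩ ((t : ℝ) * L) (hmem t)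
    rw [h0, zero_sub, abs_neg, abs_of_nonneg (hmem t).1] at h3
    rw [h3, one_mul]
    exact (hmem t).2

end Pool.Agent.Helper70.TC2.GT
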